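import Pool.Agent.H.MP_4e48d5_nt.B
import Pool.Agent.H.MP_22b8ff_nt.B

set_option autoImplicit false

namespace Pool.Agent.Results.MP_4e48d5_nt.Lower

open MeasureTheory Filter

/-- the van der Corput sequence in base two -/
noncomputable def vdc (n : ℕ) : ℝ := ∑' j : ℕ, ((n / 2 ^ j % 2 : ℕ) : ℝ) / 2 ^ (j + 1)

open Classical in
/-- the discrepancy of the first `N` terms of the hybrid sequence -/
noncomputable def disc (α : ℝ) (N : ℕ) : ℝ :=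
  sSup {d | ∃ a₁ b₁ a₂ b₂ : ℝ, 0 ≤ a₁ ∧ a₁ ≤ b₁ ∧ b₁ ≤ 1 ∧ 0 ≤ a₂ ∧ a₂ ≤ b₂ ∧ b₂ ≤ 1 ∧
    d = |(((Finset.range N).filter fun n : ℕ =>
      vdc n ∈ Set.Ico a₁ b₁ ∧ Int.fract (n * α) ∈ Set.Ico a₂ b₂).card : ℝ) / N -
        (b₁ - a₁) * (b₂ - a₂)|}

theorem vdc_dvd (j : ℕ) : ∀ n : ℕ, vdc n < 1 / 2 ^ j → 2 ^ j ∣ n := by
  have e : ∀ n, vdc n = Pool.Agent.H.MP_22b8ff_nt.vdc 2 n := fun n => by
    simp [vdc, Pool.Agent.H.MP_22b8ff_nt.vdc]
  induction j with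
  | zero => simp
  | succ j ih =>
    intro n h
    have h1 := Pool.Agent.H.MP_22b8ff_nt.vdc_rec one_lt_two n
    have h2 := (Pool.Agent.H.MP_22b8ff_nt.vdc_bd one_lt_two (n / 2)).1
    rw [← e, ← e] at h1
    rw [← e] at h2
    have h3 : (1 : ℝ) / 2 ^ (j + 1) = 1 / 2 ^ j / 2 := by rw [pow_succ]; field_simp
    have h4 : (1 : ℝ) / 2 ^ j ≤ 1 := div_le_self zero_le_one (one_le_pow₀ (by norm_num))
    rw [h1, h3] at h
    rcases Nat.mod_two_eq_zero_or_one n with h0 | h0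
    · rw [h0] at h
      obtain ⟨c, hc⟩ := ih (n / 2) (by push_cast at h; linarith)
      exact ⟨c, by rw [pow_succ, mul_right_comm, ← hc]; omega⟩
    · rw [h0] at h
      push_cast at h; linarith

theorem result : ∀ᵐ α : ℝ, ∃ C : ℝ, 0 < C ∧
    ∃ᶠ N : ℕ in atTop, C * Real.log N ^ 2 / N ≤ disc α N := by
  classical
  filter_upwards [Pool.Agent.H.MP_4e48d5_nt.ae_real] with α ⟨k0, hk⟩
  obtain ⟨k, hk0, hk1⟩ : ∃ k : ℕ, k0 ≤ k ∧ 1 ≤ k := ⟨k0 + 1, by omega, by omega⟩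
  have hk' : (1 : ℝ) ≤ k := by exact_mod_cast hk1
  refine ⟨1 / (800 * k), by positivity, frequently_atTop.2 fun J => ?_⟩
  obtain ⟨j, hj, q, q1, q2, a, ha⟩ := hk (J + 8 * k)
  have hq : (1 : ℝ) ≤ q := by exact_mod_cast q1
  have hj1 : (8 : ℝ) * k ≤ j := by exact_mod_cast (by omega : 8 * k ≤ j)
  have hj2 : (1 : ℝ) ≤ j := by linarith
  have ha' : |q * (2 ^ j * α) - a| ≤ (k : ℝ) / (q * j ^ 2) :=
    ha.trans (div_le_div_of_nonneg_right (by exact_mod_cast hk0) (by positivity))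
  set y : ℝ := q * j ^ 2 / (8 * k) with hy
  have hy1 : 1 ≤ y := by
    rw [hy, le_div_iff₀ (by positivity)]; nlinarith
  set M := ⌊y⌋₊ with hM
  have hM1 : (M : ℝ) ≤ y := Nat.floor_le (by linarith)
  have hM2 : 1 ≤ M := Nat.le_floor (by simpa using hy1)
  have hM2' : (1 : ℝ) ≤ M := by exact_mod_cast hM2
  have hM3 : y ≤ 2 * M := by have := Nat.lt_floor_add_one y; linarith
  have h2j : (1 : ℝ) ≤ 2 ^ j := one_le_pow₀ (by norm_num)
  refine ⟨2 ^ j * M, ?_, ?_⟩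
  · have := j.lt_two_pow_self
    nlinarith
  have hN : (0 : ℝ) < ((2 ^ j * M : ℕ) : ℝ) := by push_cast; positivity
  have hbdd : BddAbove {d | ∃ a₁ b₁ a₂ b₂ : ℝ, 0 ≤ a₁ ∧ a₁ ≤ b₁ ∧ b₁ ≤ 1 ∧ 0 ≤ a₂ ∧ a₂ ≤ b₂ ∧
      b₂ ≤ 1 ∧ d = |(((Finset.range (2 ^ j * M)).filter fun n : ℕ =>
      vdc n ∈ Set.Ico a₁ b₁ ∧ Int.fract (n * α) ∈ Set.Ico a₂ b₂).card : ℝ) / (2 ^ j * M : ℕ) -
        (b₁ - a₁) * (b₂ - a₂)|} := by
    refine ⟨1, ?_⟩
    rintro d ⟨a₁, b₁, a₂, b₂, h1, h2, h3, h4, h5, h6, rfl⟩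
    have c1 : (((Finset.range (2 ^ j * M)).filter fun n : ℕ =>
      vdc n ∈ Set.Ico a₁ b₁ ∧ Int.fract (n * α) ∈ Set.Ico a₂ b₂).card : ℝ) / (2 ^ j * M : ℕ)
        ≤ 1 := by
      rw [div_le_one hN]
      exact_mod_cast (Finset.card_filter_le _ _).trans (by simp)
    have c2 : 0 ≤ (((Finset.range (2 ^ j * M)).filter fun n : ℕ =>
      vdc n ∈ Set.Ico a₁ b₁ ∧ Int.fract (n * α) ∈ Set.Ico a₂ b₂).card : ℝ) / (2 ^ j * M : ℕ) := by
      positivity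
    have c3 : 0 ≤ (b₁ - a₁) * (b₂ - a₂) := mul_nonneg (by linarith) (by linarith)
    have c4 : (b₁ - a₁) * (b₂ - a₂) ≤ 1 := mul_le_one₀ (by linarith) (by linarith) (by linarith)
    rw [abs_le]; constructor <;> linarith
  refine le_trans ?_ (le_csSup hbdd ⟨0, 1 / 2 ^ j, 1 / (4 * q), 3 / (4 * q), le_rfl, by positivity,
    div_le_self zero_le_one h2j, by positivity,
    div_le_div_of_nonneg_right (by norm_num) (by positivity),
    by rw [div_le_one (by positivity)]; linarith, rfl⟩)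
  have hemp : ((Finset.range (2 ^ j * M)).filter fun n : ℕ =>
      vdc n ∈ Set.Ico 0 (1 / 2 ^ j) ∧
        Int.fract (n * α) ∈ Set.Ico (1 / (4 * q) : ℝ) (3 / (4 * q))) = ∅ := by
    refine Finset.filter_eq_empty_iff.2 fun n hn ⟨h1, h2, h3⟩ => ?_
    obtain ⟨m, rfl⟩ := vdc_dvd j n h1.2
    have hm : (m : ℝ) ≤ M := by
      exact_mod_cast (Nat.lt_of_mul_lt_mul_left (Finset.mem_range.1 hn)).le
    have hm0 : (0 : ℝ) ≤ m := Nat.cast_nonneg _
    have h8 : |m * (q * (2 ^ j * α) - a)| ≤ 1 / 8 := by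
      rw [abs_mul, abs_of_nonneg hm0]
      refine (mul_le_mul (hm.trans hM1) ha' (abs_nonneg _) (by linarith)).trans (le_of_eq ?_)
      rw [hy]; field_simp
    rw [div_le_iff₀ (by positivity)] at h2
    rw [lt_div_iff₀ (by positivity)] at h3
    set c : ℤ := m * a - q * ⌊((2 ^ j * m : ℕ) : ℝ) * α⌋ with hc
    have e : Int.fract (((2 ^ j * m : ℕ) : ℝ) * α) * (4 * q) =
        4 * (c + m * (q * (2 ^ j * α) - a)) := by
      rw [hc, Int.fract]; push_cast; ring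
    rw [e] at h2 h3
    obtain ⟨l1, l2⟩ := abs_le.1 h8
    have c0 : (0 : ℝ) < c := by linarith
    have c1 : (c : ℝ) < 1 := by linarith
    have c0' : 0 < c := by exact_mod_cast c0
    have c1' : c < 1 := by exact_mod_cast c1
    omega
  rw [hemp, div_le_iff₀ hN]
  have e : |((∅ : Finset ℕ).card : ℝ) / ((2 ^ j * M : ℕ) : ℝ) -
      (1 / 2 ^ j - 0) * (3 / (4 * q) - 1 / (4 * q))| * ((2 ^ j * M : ℕ) : ℝ) = M / (2 * q) := by
    rw [show (3 : ℝ) / (4 * q) - 1 / (4 * q) = 1 / (2 * q) by field_simp; ring]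
    simp only [Finset.card_empty, Nat.cast_zero, zero_div, zero_sub, abs_neg, sub_zero]
    rw [abs_of_nonneg (by positivity)]
    push_cast; field_simp
  rw [e]
  have l0 : 0 ≤ Real.log ((2 ^ j * M : ℕ) : ℝ) := Real.log_natCast_nonneg _
  have l1 : Real.log ((2 ^ j * M : ℕ) : ℝ) ≤ 5 * j := by
    have a1 : (j : ℝ) ≤ 2 ^ j := by exact_mod_cast j.lt_two_pow_self.le
    have a2 : (q : ℝ) ≤ 2 ^ (j + 1) := by exact_mod_cast q2
    have a3 : y ≤ q * j ^ 2 := div_le_self (by positivity) (by linarith)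
    have a4 : ((2 ^ j * M : ℕ) : ℝ) ≤ 2 ^ (4 * j + 1) := by
      push_cast
      calc (2 : ℝ) ^ j * M ≤ 2 ^ j * (2 ^ (j + 1) * (2 ^ j) ^ 2) := by
            refine mul_le_mul_of_nonneg_left (hM1.trans (a3.trans ?_)) (by positivity)
            gcongr
        _ = _ := by ring
    refine (Real.log_le_log hN a4).trans ?_
    rw [Real.log_pow]
    have := Real.log_two_lt_d9
    push_cast
    nlinarith
  calc 1 / (800 * k) * Real.log ((2 ^ j * M : ℕ) : ℝ) ^ 2 ≤ 1 / (800 * k) * (5 * j) ^ 2 := by gcongr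
    _ = y / 2 / (2 * q) := by rw [hy]; field_simp; ring
    _ ≤ _ := div_le_div_of_nonneg_right (by linarith) (by positivity)

end Pool.Agent.Results.MP_4e48d5_nt.Lower
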